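import Pool.Agent.W622.ETG.Stm

set_option autoImplicit false
set_option linter.unusedSectionVars false

namespace Pool.Agent.W240.ELG

open Pool.Agent.W622.ETG Module

section
variable {V : Type} [AddCommGroup V] [Module (ZMod 2) V] [Finite V] {e : V} {A : Fam V}

theorem eq_of_compl {P Q R : DSub V} (h : P ⊔ Q = ⊤) (hQ : Q ≤ R) (hd : Disjoint P R) : Q = R := by
  have h1 := sup_inf_assoc_of_le P hQ
  rw [sup_comm Q P, h, top_inf_eq, hd.eq_bot, sup_bot_eq] at h1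
  exact h1.symm

theorem finrank_compl {P Q : DSub V} (h : P ⊔ Q = ⊤) (hd : Disjoint P Q) :
    finrank (ZMod 2) P + finrank (ZMod 2) Q = finrank (ZMod 2) V := by
  have h3 := Submodule.finrank_sup_add_finrank_inf_eq P Q
  rw [hd.eq_bot, finrank_bot, add_zero, h, finrank_top, finrank_Dl] at h3
  exact h3.symm

theorem finrank_ge_of_sup {P Q : DSub V} (h : P ⊔ Q = ⊤) :
    finrank (ZMod 2) V ≤ finrank (ZMod 2) P + finrank (ZMod 2) Q := by
  have h3 := Submodule.finrank_sup_add_finrank_inf_eq P Q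
  rw [h, finrank_top, finrank_Dl] at h3
  omega

theorem disj_of_finrank {P Q : DSub V} (h : P ⊔ Q = ⊤)
    (he : finrank (ZMod 2) P + finrank (ZMod 2) Q = finrank (ZMod 2) V) : Disjoint P Q := by
  have h3 := Submodule.finrank_sup_add_finrank_inf_eq P Q
  rw [h, finrank_top, finrank_Dl] at h3
  rw [disjoint_iff, ← Submodule.finrank_eq_zero (R := ZMod 2)]
  omega

theorem fadd (ω : Frm V) : ω + ω = 0 := vadd ω

/-- a violation -/
structure V0 (A : Fam V) (X Y : DSub V) (ζ η : Frm V) : Prop where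
  hζ : ζ ∈ A
  hη : η ∈ res A Y
  hY : Disjoint (sp ζ) Y
  hX : Disjoint (sp ζ) X
  top : sp (ζ + η) = ⊤

theorem isPr_zero {X : DSub V} {ζ : Frm V} : IsPr A X ζ 0 ↔ Disjoint (sp ζ) X := by
  constructor
  · intro h
    have := h.2
    rwa [add_zero] at this
  · intro h
    exact ⟨Submodule.zero_mem _, by rwa [add_zero]⟩

theorem step2 (hLU : S_LU) (hDEC : S_DEC) (hADD : S_ADD) (hBDIS : S_BDIS) (hBNT : S_BNT)
    {X Y : DSub V} {ζ η π : Frm V} (hMC : MC e A) (hX : X ∈ GB e A) (hY : Y ∈ GB e A) (hXY : X ≠ Y)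
    (hζ : ζ ∈ A) (hη : η ∈ res A Y) (hζY : Disjoint (sp ζ) Y) (hπ : IsPr A X ζ π)
    (hno : ¬ IsPr A X (ζ + η) π) :
    V0 A X Y ζ η ∧ finrank (ZMod 2) X = finrank (ZMod 2) Y ∧ ∃ σ α, V0 A Y X σ α := by
  have hdis : Disjoint X Y := hBDIS V e A X Y hMC hX hY.1 hXY
  have hXb : X ≠ ⊥ := (hBNT V e A X hMC hX.1).2
  have hLX : LU e (res A X) := hLU V _ _ (hMC.ef.res X) (hMC.her.res X)
  have hAη : EF e η := hMC.ef η hη.1
  have hAζ : EF e ζ := hMC.ef ζ hζ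
  have hηY : sp η ≤ Y := (mem_res'.1 hη).2
  have hη0 : IsPr A X η 0 := isPr_zero.2 (hdis.symm.mono_left hηY)
  have hdζη : Disjoint (sp ζ) (sp η) := hζY.mono_right hηY
  have htop : sp (ζ + η) = ⊤ := by
    by_contra h
    obtain ⟨b, hb, hle⟩ := exists_ann h
    have h1 : (ζ + η) b = 0 := (hAζ.add hAη).ker_iff_ann.2 hle
    have h2 := (add_ker le_rfl hηY hζY).1 h1
    have h3 := hADD V e A X b ζ η π 0 hMC hX hb hζ hη.1 h2.1 h2.2 hπ hη0
    rw [add_zero] at h3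
    exact hno h3
  have hsup : sp ζ ⊔ sp η = ⊤ := by rw [← sp_add hAζ hAη hdζη, htop]
  have hspη : sp η = Y := eq_of_compl hsup hηY hζY
  obtain ⟨α, hα⟩ := (hDEC V e A X hMC.ef).1 hLX hX.2 (ζ + η) (A.add_mem hζ hη.1)
  set σ : Frm V := ζ + η + α with hσ
  have hσX : Disjoint (sp σ) X := hα.2
  have hαX : sp α ≤ X := (mem_res'.1 hα.1).2
  have hAα : EF e α := hMC.ef α hα.1.1
  have hσA : σ ∈ A := A.add_mem (A.add_mem hζ hη.1) hα.1.1
  have hAσ : EF e σ := hMC.ef σ hσA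
  have hσα : σ + α = ζ + η := by
    rw [hσ, add_assoc (ζ + η) α α, fadd, add_zero]
  have hsup2 : sp σ ⊔ sp α = ⊤ := by
    rw [← sp_add hAσ hAα (hσX.mono_right hαX), hσα, htop]
  have hspα : sp α = X := eq_of_compl hsup2 hαX hσX
  have hση : σ + η = ζ + α := by
    rw [hσ]
    have : ζ + η + α + η = ζ + α + (η + η) := by abel
    rw [this, fadd, add_zero]
  -- claim (i)
  have hi : sp σ ⊔ Y = ⊤ := by
    by_contra h
    obtain ⟨b, hb, hle⟩ := exists_ann h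
    have h1 : σ b = 0 := hAσ.ker_iff_ann.2 (le_sup_left.trans hle)
    have h2 : η b = 0 := hAη.ker_iff_ann.2 (hηY.trans (le_sup_right.trans hle))
    have h3 := hADD V e A X b σ η 0 0 hMC hX hb hσA hη.1 h1 h2 (isPr_zero.2 hσX) hη0
    rw [add_zero, hση] at h3
    have h4 : IsPr A X ζ α := ⟨hα.1, isPr_zero.1 h3⟩
    have h5 : π = α := (hDEC V e A X hMC.ef).2.1 ζ hζ π α hπ h4
    rw [h5] at hno
    exact hno hα
  have hii : sp ζ ⊔ X = ⊤ := by
    by_contra h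
    obtain ⟨b, hb, hle⟩ := exists_ann h
    have h1 : ζ b = 0 := hAζ.ker_iff_ann.2 (le_sup_left.trans hle)
    have h2 : α b = 0 := hAα.ker_iff_ann.2 (hαX.trans (le_sup_right.trans hle))
    have h3 := hADD V e A Y b ζ α 0 0 hMC hY hb hζ hα.1.1 h1 h2 (isPr_zero.2 hζY)
      (isPr_zero.2 (hdis.mono_left hαX))
    rw [add_zero] at h3
    have h4 : Disjoint (sp (ζ + α)) Y := isPr_zero.1 h3
    have h5 : sp (ζ + α + η) = sp (ζ + α) ⊔ sp η := sp_add (hAζ.add hAα) hAη (h4.mono_right hηY)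
    have h6 : ζ + α + η = σ := by rw [hσ]; abel
    rw [h6] at h5
    have h7 : Y ≤ sp σ := by rw [h5, hspη]; exact le_sup_right
    rw [sup_eq_left.2 h7] at hi
    rw [hi] at hσX
    exact hXb (top_disjoint.1 hσX)
  have d1 := finrank_compl (by rw [← hspη]; exact hsup : sp ζ ⊔ Y = ⊤) hζY
  have d2 := finrank_compl (by rw [← hspα]; exact hsup2 : sp σ ⊔ X = ⊤) hσX
  have d3 := finrank_ge_of_sup hi
  have d4 := finrank_ge_of_sup hii
  have hζX : Disjoint (sp ζ) X := disj_of_finrank hii (by omega)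
  have hσY : Disjoint (sp σ) Y := disj_of_finrank hi (by omega)
  refine ⟨⟨hζ, hη, hζY, hζX, htop⟩, by omega, σ, α, ⟨hσA, hα.1, hσX, hσY, ?_⟩⟩
  rw [hσα, htop]

theorem step3 (hLU : S_LU) (hDEC : S_DEC) (hADD : S_ADD) (hBDIS : S_BDIS) (hBNT : S_BNT)
    {X Y : DSub V} {ζ η : Frm V} (hMC : MC e A) (hX : X ∈ GB e A) (hY : Y ∈ GB e A) (hXY : X ≠ Y)
    (hcone : IsCone e A X) (hv : V0 A X Y ζ η)
    (hdim : finrank (ZMod 2) X = finrank (ZMod 2) Y) : False := by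
  have hdis : Disjoint X Y := hBDIS V e A X Y hMC hX hY.1 hXY
  have hXb : X ≠ ⊥ := (hBNT V e A X hMC hX.1).2
  obtain ⟨p, h3, hp, hp0, hpe, hpg⟩ := hcone
  obtain ⟨g, hg, hgp⟩ : ∃ g ∈ X, g ∉ Submodule.span (ZMod 2) {p} := by
    by_contra h
    push Not at h
    have h1 : X ≤ Submodule.span (ZMod 2) {p} := h
    have h2 := Submodule.finrank_mono h1
    have h4 := finrank_span_singleton (K := ZMod 2) hp0
    omega
  have hne : wd e p g ≠ 0 := by
    intro h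
    obtain ⟨a, ha⟩ : ∃ a, p a = 1 := by
      by_contra hc
      push Not at hc
      exact hp0 (LinearMap.ext fun a => z_ne' (hc a))
    have h1 : wd e p g a = 0 := by rw [h]; rfl
    rw [wd_val_one' ha] at h1
    have h2 : g = (g a + g e) • p := Pool.Agent.W622.ETC.add_eq_zero'.1 h1
    apply hgp
    rw [h2]
    exact Submodule.smul_mem _ _ (Submodule.mem_span_singleton_self p)
  have hwA : wd e p g ∈ A := hpg g hg
  have hwX : sp (wd e p g) ≤ X := by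
    refine (sp_wd_le p g).trans (Submodule.span_le.2 ?_)
    rintro f (rfl | rfl)
    · exact hp
    · exact hg
  have hw2 : finrank (ZMod 2) (sp (wd e p g)) ≤ 2 := by
    refine (Submodule.finrank_mono (sp_wd_le p g)).trans ?_
    classical
    have h4 := finrank_span_finset_le_card (R := ZMod 2) ({p, g} : Finset (Dl V))
    rw [Finset.coe_pair] at h4
    exact h4.trans Finset.card_le_two
  have hAζ : EF e ζ := hMC.ef ζ hv.hζ
  have hAη : EF e η := hMC.ef η hv.hη.1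
  have hηY : sp η ≤ Y := (mem_res'.1 hv.hη).2
  have hsup : sp ζ ⊔ sp η = ⊤ := by
    rw [← sp_add hAζ hAη (hv.hY.mono_right hηY), hv.top]
  have hspη : sp η = Y := eq_of_compl hsup hηY hv.hY
  have d1 := finrank_compl (by rw [← hspη]; exact hsup : sp ζ ⊔ Y = ⊤) hv.hY
  have hnt : sp ζ ⊔ sp (wd e p g) ≠ ⊤ := by
    intro h
    have := finrank_ge_of_sup h
    omega
  obtain ⟨b, hb, hle⟩ := exists_ann hnt
  have h1 : ζ b = 0 := hAζ.ker_iff_ann.2 (le_sup_left.trans hle)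
  have h2 : wd e p g b = 0 := (wd_ef hpe g).ker_iff_ann.2 (le_sup_right.trans hle)
  have hY' : IsPr A Y (ζ + wd e p g) (0 + 0) :=
    hADD V e A Y b ζ (wd e p g) 0 0 hMC hY hb hv.hζ hwA h1 h2 (isPr_zero.2 hv.hY)
      (isPr_zero.2 (hdis.mono_left hwX))
  rw [add_zero] at hY'
  have e1 : ζ + wd e p g + wd e p g = ζ := by rw [add_assoc, fadd, add_zero]
  have hX' : IsPr A X (ζ + wd e p g) (wd e p g) :=
    ⟨mem_res'.2 ⟨hwA, hwX⟩, by rw [e1]; exact hv.hX⟩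
  have hno : ¬ IsPr A X (ζ + wd e p g + η) (wd e p g) := by
    intro h
    have h5 := h.2
    have e2 : ζ + wd e p g + η + wd e p g = ζ + η := by
      have : ζ + wd e p g + η + wd e p g = ζ + η + (wd e p g + wd e p g) := by abel
      rw [this, fadd, add_zero]
    rw [e2, hv.top] at h5
    exact hXb (top_disjoint.1 h5)
  have hres := step2 hLU hDEC hADD hBDIS hBNT hMC hX hY hXY (A.add_mem hv.hζ hwA) hv.hη
    (isPr_zero.1 hY') hX' hno
  have h6 : wd e p g = 0 := (hDEC V e A X hMC.ef).2.1 _ (A.add_mem hv.hζ hwA) _ _ hX'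
    (isPr_zero.2 hres.1.hX)
  exact hne h6

/-- Step 1: removing the disjointness assumption -/
theorem step1 (hLU : S_LU) (hDEC : S_DEC) {X Y : DSub V} (hMC : MC e A) (hX : X ∈ GB e A)
    (hY : Y ∈ GB e A)
    (H : ∀ ζ ∈ A, Disjoint (sp ζ) Y → ∀ η ∈ res A Y, ∀ π, IsPr A X ζ π → IsPr A X (ζ + η) π) :
    ∀ ζ ∈ A, ∀ η ∈ res A Y, ∀ π, IsPr A X ζ π → IsPr A X (ζ + η) π := by
  intro ζ hζ η hη π hπ
  have hLX : LU e (res A X) := hLU V _ _ (hMC.ef.res X) (hMC.her.res X)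
  have hLY : LU e (res A Y) := hLU V _ _ (hMC.ef.res Y) (hMC.her.res Y)
  obtain ⟨η₀, hη₀⟩ := (hDEC V e A Y hMC.ef).1 hLY hY.2 ζ hζ
  have hζ' : ζ + η₀ ∈ A := A.add_mem hζ hη₀.1.1
  obtain ⟨π', hπ'⟩ := (hDEC V e A X hMC.ef).1 hLX hX.2 (ζ + η₀) hζ'
  have h1 := H (ζ + η₀) hζ' hη₀.2 η₀ hη₀.1 π' hπ'
  have e1 : ζ + η₀ + η₀ = ζ := by rw [add_assoc, fadd, add_zero]
  rw [e1] at h1
  have h2 : π = π' := (hDEC V e A X hMC.ef).2.1 ζ hζ π π' hπ h1
  have h3 := H (ζ + η₀) hζ' hη₀.2 (η₀ + η) ((res A Y).add_mem hη₀.1 hη) π' hπ'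
  have e2 : ζ + η₀ + (η₀ + η) = ζ + η := by
    have : ζ + η₀ + (η₀ + η) = ζ + η + (η₀ + η₀) := by abel
    rw [this, fadd, add_zero]
  rw [e2] at h3
  rw [h2]
  exact h3

/-- the case that one of the two is a cone -/
theorem stepC (hLU : S_LU) (hDEC : S_DEC) (hADD : S_ADD) (hBDIS : S_BDIS) (hBNT : S_BNT)
    {X Y : DSub V} (hMC : MC e A) (hX : X ∈ GB e A) (hY : Y ∈ GB e A) (hXY : X ≠ Y)
    (hcone : IsCone e A X ∨ IsCone e A Y) :
    ∀ ζ ∈ A, ∀ η ∈ res A Y, ∀ π, IsPr A X ζ π → IsPr A X (ζ + η) π := by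
  apply step1 hLU hDEC hMC hX hY
  intro ζ hζ hζY η hη π hπ
  by_contra hno
  obtain ⟨hv, hd, σ, α, hv'⟩ := step2 hLU hDEC hADD hBDIS hBNT hMC hX hY hXY hζ hη hζY hπ hno
  rcases hcone with h | h
  · exact step3 hLU hDEC hADD hBDIS hBNT hMC hX hY hXY h hv hd
  · exact step3 hLU hDEC hADD hBDIS hBNT hMC hY hX hXY.symm h hv' hd.symm

/-- every cone lies in a maximal cone -/
theorem exists_maxCone' {Z : DSub V} (hZ : IsCone e A Z) : ∃ M, MaxCone e A M ∧ Z ≤ M := by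
  have hfin : {M : DSub V | IsCone e A M ∧ Z ≤ M}.Finite := Set.toFinite _
  obtain ⟨M, hM, hmax⟩ := hfin.exists_maximalFor (fun M => M) _ ⟨Z, hZ, le_rfl⟩
  refine ⟨M, ⟨hM.1, fun Y hY hMY => ?_⟩, hM.2⟩
  exact le_antisymm (hmax ⟨hY, hM.2.trans hMY⟩ hMY) hMY

end

theorem t_COMP (hLU : S_LU) (hDEC : S_DEC) (hADD : S_ADD) (hBDIS : S_BDIS)
    (hBNT : S_BNT) (hA4 : S_A4) : S_COMP := by
  intro V _ _ _ e A X Y ζ η π hMC hor hX hY hXY hζ hη hπ
  by_cases hcone : IsCone e A X ∨ IsCone e A Y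
  · exact stepC hLU hDEC hADD hBDIS hBNT hMC hX hY hXY hcone ζ hζ η hη π hπ
  · refine step1 hLU hDEC hMC hX hY ?_ ζ hζ η hη π hπ
    intro ζ hζ hζY η hη π hπ
    by_contra hno
    obtain ⟨hv, hd, -⟩ := step2 hLU hDEC hADD hBDIS hBNT hMC hX hY hXY hζ hη hζY hπ hno
    obtain ⟨Z, hZ⟩ := hor
    · obtain ⟨M, hM, _⟩ := exists_maxCone' hZ
      have hMG : M ∈ GB e A := ⟨Or.inl hM, hA4 V e A M hMC hM⟩
      have hXM : X ≠ M := by
        rintro rfl
        exact hcone (Or.inl hM.1)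
      have hYM : Y ≠ M := by
        rintro rfl
        exact hcone (Or.inr hM.1)
      have hLX : LU e (res A X) := hLU V _ _ (hMC.ef.res X) (hMC.her.res X)
      have hLM : LU e (res A M) := hLU V _ _ (hMC.ef.res M) (hMC.her.res M)
      have hθ : ζ + η ∈ A := A.add_mem hζ hη.1
      obtain ⟨μ, hμ⟩ := (hDEC V e A M hMC.ef).1 hLM hMG.2 (ζ + η) hθ
      obtain ⟨α, hα⟩ := (hDEC V e A X hMC.ef).1 hLX hX.2 (ζ + η) hθ
      have hXb : X ≠ ⊥ := (hBNT V e A X hMC hX.1).2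
      have hMb : M ≠ ⊥ := (hBNT V e A M hMC hMG.1).2
      have hα0 : α ≠ 0 := by
        rintro rfl
        have h1 := isPr_zero.1 hα
        rw [hv.top] at h1
        exact hXb (top_disjoint.1 h1)
      have h1 : IsPr A X (ζ + μ) 0 :=
        stepC hLU hDEC hADD hBDIS hBNT hMC hX hMG hXM (Or.inr hM.1) ζ hζ μ hμ.1 0
          (isPr_zero.2 hv.hX)
      have h2 : IsPr A Y (ζ + μ) 0 :=
        stepC hLU hDEC hADD hBDIS hBNT hMC hY hMG hYM (Or.inr hM.1) ζ hζ μ hμ.1 0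
          (isPr_zero.2 hv.hY)
      have h3 : IsPr A X (ζ + η + μ) α :=
        stepC hLU hDEC hADD hBDIS hBNT hMC hX hMG hXM (Or.inr hM.1) (ζ + η) hθ μ hμ.1 α hα
      have e1 : ζ + μ + η = ζ + η + μ := by abel
      have h4 : ¬ IsPr A X (ζ + μ + η) 0 := by
        intro h
        rw [e1] at h
        exact hα0 ((hDEC V e A X hMC.ef).2.1 _ (A.add_mem hθ hμ.1.1) _ _ h3 h)
      have h5 := step2 hLU hDEC hADD hBDIS hBNT hMC hX hY hXY (A.add_mem hζ hμ.1.1) hη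
        (isPr_zero.1 h2) h1 h4
      have h6 := h5.1.top
      rw [e1] at h6
      have h7 := hμ.2
      rw [h6] at h7
      exact hMb (top_disjoint.1 h7)

end Pool.Agent.W240.ELG
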